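import Pool.Agent.H502.T5

/-!
# Elliptic curves over imaginary quadratic fields with small denominators at the split primes

Let `K` be an imaginary quadratic field with discriminant `D`, let `ℓ` be one of the primes
`2, 3, 5, 7, 13` (those for which `X_0(ℓ)` has genus zero) and let `E` be an elliptic curve over
`K` with a `K`-rational subgroup of order `ℓ`.  By Fricke, the pair consisting of `E` and of the
subgroup has a parameter `t ∈ K`, `t ≠ 0`, with `j(E) = P_ℓ(t) / t`, where `P_ℓ` is the polynomial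
`levelPoly ℓ`.

Let `δ = splitDen j(E)` be the norm of the part of the denominator of `j(E)` which is supported at
the primes of `K` that are split over `ℚ`, and let `κ = ℓ ^ (12 / (ℓ - 1))` if `ℓ` splits in `K` and
`κ = 1` otherwise.  Suppose that `4 (κ δ) ^ 2 < |D|`.  We show that `t ^ 2` is a rational number,
and that, if `j(E)` is integral at one odd ramified prime not above `ℓ`, then `E` is a twist of the
base change of an elliptic curve over `ℚ`; hence (Wiles, Taylor, Breuil, Conrad, Diamond; base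
change for `GL_2`) `E` is modular.

If `E` has potentially good reduction at the split primes, and `ℓ` is not split, the assumption
says `4 < |D|`.
-/

set_option autoImplicit false

open IsDedekindDomain NumberField Polynomial

namespace Pool.Agent.H502.SD

/-- Fricke's polynomials: `j(ℓ τ) = P_ℓ(t) / t` for `t = (η(τ) / η(ℓ τ)) ^ (24 / (ℓ - 1))`, a
generator of the function field of `X_0(ℓ)`, and `j(τ) = P_ℓ(u) / u` for
`u = ℓ ^ (12 / (ℓ - 1)) / t`. -/
noncomputable def levelPoly : ℕ → ℤ[X]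
  | 2 => (X + 16) ^ 3
  | 3 => (X + 27) * (X + 3) ^ 3
  | 5 => (X ^ 2 + 10 * X + 5) ^ 3
  | 7 => (X ^ 2 + 13 * X + 49) * (X ^ 2 + 5 * X + 1) ^ 3
  | 13 => (X ^ 2 + 5 * X + 13) * (X ^ 4 + 7 * X ^ 3 + 20 * X ^ 2 + 19 * X + 1) ^ 3
  | _ => 0

lemma levelPoly_spec {l : ℕ} (hl : l = 2 ∨ l = 3 ∨ l = 5 ∨ l = 7 ∨ l = 13) :
    (levelPoly l).Monic ∧ 2 ≤ (levelPoly l).natDegree ∧
      (levelPoly l).coeff 0 = ((l ^ (12 / (l - 1)) : ℕ) : ℤ) := by
  rcases hl with rfl | rfl | rfl | rfl | rfl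
  · have h1 : (X + 16 : ℤ[X]).Monic := by monicity!
    have h2 : (X + 16 : ℤ[X]).natDegree = 1 := by compute_degree!
    refine ⟨h1.pow 3, ?_, ?_⟩
    · show 2 ≤ ((X + 16 : ℤ[X]) ^ 3).natDegree
      rw [h1.natDegree_pow, h2]; norm_num
    · show ((X + 16 : ℤ[X]) ^ 3).coeff 0 = _
      rw [coeff_zero_eq_eval_zero]; norm_num
  · have h1 : (X + 27 : ℤ[X]).Monic := by monicity!
    have h2 : (X + 3 : ℤ[X]).Monic := by monicity!
    have h3 : (X + 27 : ℤ[X]).natDegree = 1 := by compute_degree!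
    have h4 : (X + 3 : ℤ[X]).natDegree = 1 := by compute_degree!
    refine ⟨h1.mul (h2.pow 3), ?_, ?_⟩
    · show 2 ≤ ((X + 27) * (X + 3 : ℤ[X]) ^ 3).natDegree
      rw [h1.natDegree_mul (h2.pow 3), h2.natDegree_pow, h3, h4]; norm_num
    · show ((X + 27) * (X + 3 : ℤ[X]) ^ 3).coeff 0 = _
      rw [coeff_zero_eq_eval_zero]; norm_num
  · have h1 : (X ^ 2 + 10 * X + 5 : ℤ[X]).Monic := by monicity!
    have h2 : (X ^ 2 + 10 * X + 5 : ℤ[X]).natDegree = 2 := by compute_degree!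
    refine ⟨h1.pow 3, ?_, ?_⟩
    · show 2 ≤ ((X ^ 2 + 10 * X + 5 : ℤ[X]) ^ 3).natDegree
      rw [h1.natDegree_pow, h2]; norm_num
    · show ((X ^ 2 + 10 * X + 5 : ℤ[X]) ^ 3).coeff 0 = _
      rw [coeff_zero_eq_eval_zero]; norm_num
  · have h1 : (X ^ 2 + 13 * X + 49 : ℤ[X]).Monic := by monicity!
    have h2 : (X ^ 2 + 5 * X + 1 : ℤ[X]).Monic := by monicity!
    have h3 : (X ^ 2 + 13 * X + 49 : ℤ[X]).natDegree = 2 := by compute_degree!
    have h4 : (X ^ 2 + 5 * X + 1 : ℤ[X]).natDegree = 2 := by compute_degree!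
    refine ⟨h1.mul (h2.pow 3), ?_, ?_⟩
    · show 2 ≤ ((X ^ 2 + 13 * X + 49) * (X ^ 2 + 5 * X + 1 : ℤ[X]) ^ 3).natDegree
      rw [h1.natDegree_mul (h2.pow 3), h2.natDegree_pow, h3, h4]; norm_num
    · show ((X ^ 2 + 13 * X + 49) * (X ^ 2 + 5 * X + 1 : ℤ[X]) ^ 3).coeff 0 = _
      rw [coeff_zero_eq_eval_zero]; norm_num
  · have h1 : (X ^ 2 + 5 * X + 13 : ℤ[X]).Monic := by monicity!
    have h2 : (X ^ 4 + 7 * X ^ 3 + 20 * X ^ 2 + 19 * X + 1 : ℤ[X]).Monic := by monicity!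
    have h3 : (X ^ 2 + 5 * X + 13 : ℤ[X]).natDegree = 2 := by compute_degree!
    have h4 : (X ^ 4 + 7 * X ^ 3 + 20 * X ^ 2 + 19 * X + 1 : ℤ[X]).natDegree = 4 := by
      compute_degree!
    refine ⟨h1.mul (h2.pow 3), ?_, ?_⟩
    · show 2 ≤ ((X ^ 2 + 5 * X + 13) *
        (X ^ 4 + 7 * X ^ 3 + 20 * X ^ 2 + 19 * X + 1 : ℤ[X]) ^ 3).natDegree
      rw [h1.natDegree_mul (h2.pow 3), h2.natDegree_pow, h3, h4]; norm_num
    · show ((X ^ 2 + 5 * X + 13) *
        (X ^ 4 + 7 * X ^ 3 + 20 * X ^ 2 + 19 * X + 1 : ℤ[X]) ^ 3).coeff 0 = _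
      rw [coeff_zero_eq_eval_zero]; norm_num

end Pool.Agent.H502.SD

namespace Pool.Agent.Results.MP_87c685_nt.SmallSplitDenominators

open Pool.Agent.H502.SD

/-- Elliptic curves over an imaginary quadratic field with a rational subgroup of order
`2, 3, 5, 7` or `13` and with small denominators at the split primes. -/
theorem result {K : Type*} [Field K] [NumberField K] (hK : Module.finrank ℚ K = 2)
    [IsTotallyComplex K] (l : ℕ) (hl : l = 2 ∨ l = 3 ∨ l = 5 ∨ l = 7 ∨ l = 13)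
    (E : WeierstrassCurve K) [E.IsElliptic] (t : K) (ht : t ≠ 0)
    (hj : E.j * t = aeval t (levelPoly l))
    (hsmall : 4 * (levelFactor K (l ^ (12 / (l - 1))) * splitDen E.j) ^ 2 < (discr K).natAbs) :
    (∃ s : ℚ, t ^ 2 = algebraMap ℚ K s) ∧
    ((∃ r : HeightOneSpectrum (𝓞 K), RamifiedPrime r ∧ ((2 * l : ℕ) : 𝓞 K) ∉ r.asIdeal ∧
        r.valuation K E.j ≤ 1) →
      ∃ W : WeierstrassCurve ℚ, W.IsElliptic ∧
        ∃ C : WeierstrassCurve.VariableChange (AlgebraicClosure K),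
          C • (W.map (algebraMap ℚ (AlgebraicClosure K))) =
            E.map (algebraMap K (AlgebraicClosure K))) := by
  obtain ⟨hP, hdeg, hP0⟩ := levelPoly_spec hl
  have hl0 : l ≠ 0 := by rcases hl with rfl | rfl | rfl | rfl | rfl <;> norm_num
  obtain ⟨c, -, hcc, hfix, htr⟩ := exists_conj hK
  have h1 := conj_t_eq hK c hcc htr (levelPoly l) hP hdeg _ (pow_ne_zero _ hl0) hP0 t E.j ht hj
    hsmall
  refine ⟨?_, ?_⟩
  · obtain ⟨s, hs⟩ := hfix (t ^ 2) (by
      rcases h1 with h | h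
      · rw [map_pow, h]
      · rw [map_pow, h, neg_sq])
    exact ⟨s, hs.symm⟩
  · rintro ⟨r, hr, hr2, hjr⟩
    have hr2' : (2 : 𝓞 K) ∉ r.asIdeal := by
      intro h
      apply hr2
      push_cast
      exact Ideal.mul_mem_right _ _ h
    have hrl : ((l ^ (12 / (l - 1)) : ℕ) : 𝓞 K) ∉ r.asIdeal := by
      intro h
      apply hr2
      push_cast at h ⊢
      exact Ideal.mul_mem_left _ _ (r.isPrime.mem_of_pow_mem _ h)
    have h2 := conj_t_ne_neg hK c (levelPoly l) hP hdeg _ hP0 t E.j ht hj r hr hr2' hrl hjr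
    have h3 : c t = t := h1.resolve_right h2
    obtain ⟨s, hs⟩ := hfix t h3
    classical
    set jQ : ℚ := aeval s (levelPoly l) / s with hjQ
    have h4 : algebraMap ℚ K jQ = E.j := by
      rw [hjQ, map_div₀, ← aeval_algebraMap_apply, hs, ← hj, mul_div_assoc, div_self ht, mul_one]
    refine ⟨WeierstrassCurve.ofJ jQ, inferInstance, ?_⟩
    apply WeierstrassCurve.exists_variableChange_of_j_eq
    rw [WeierstrassCurve.map_j, WeierstrassCurve.map_j, WeierstrassCurve.ofJ_j, ← h4,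
      IsScalarTower.algebraMap_apply ℚ K (AlgebraicClosure K)]

end Pool.Agent.Results.MP_87c685_nt.SmallSplitDenominators
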